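import Pool.Agent.H23.PL.Targets

/-!
# Squares among the primitive parts of the Pell numbers: density zero
-/

set_option autoImplicit false

open Finset

namespace Pool.Agent.H17.PLD

open Pool.Agent.H23.PL

/-- FIN. Density zero. -/
theorem pf_FIN (hSUM : T_SUM) (hDEN : T_DEN) : T_FIN := by
  classical
  intro u L hL η hη
  obtain ⟨c, X₁, hc0, hc1, h1⟩ := hDEN (η / 2) (by positivity)
  obtain ⟨X₂, h2⟩ := hSUM u L hL c (η / 2) hc0 hc1 (by positivity)
  refine ⟨max X₁ X₂, fun x hx => ?_⟩
  have h3 := h1 x ((le_max_left _ _).trans hx)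
  have h4 := h2 x ((le_max_right _ _).trans hx)
  have h5 : ((Icc 1 x).filter fun r => IsSquare (L r)) ⊆
      ((Icc 1 x).filter fun r => ¬ Spl c x r) ∪
        ((Icc 1 x).filter fun r => Spl c x r ∧ IsSquare (L r)) := by
    intro r hr
    rw [mem_filter] at hr
    rw [mem_union, mem_filter, mem_filter]
    by_cases hs : Spl c x r
    · exact Or.inr ⟨hr.1, hs, hr.2⟩
    · exact Or.inl ⟨hr.1, hs⟩
  have h6 : (((Icc 1 x).filter fun r => IsSquare (L r)).card : ℝ) ≤
      (((Icc 1 x).filter fun r => ¬ Spl c x r).card : ℝ) +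
        (((Icc 1 x).filter fun r => Spl c x r ∧ IsSquare (L r)).card : ℝ) := by
    exact_mod_cast (card_le_card h5).trans (card_union_le _ _)
  calc (((Icc 1 x).filter fun r => IsSquare (L r)).card : ℝ)
      ≤ (((Icc 1 x).filter fun r => ¬ Spl c x r).card : ℝ) +
        (((Icc 1 x).filter fun r => Spl c x r ∧ IsSquare (L r)).card : ℝ) := h6
    _ ≤ η / 2 * x + η / 2 * x := add_le_add h3 h4
    _ = η * x := by ring

end Pool.Agent.H17.PLD
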